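import Pool.Agent.Helper5.BD.GDefs

/-!
# The wheel map of a planar map (module GW1 of BoundedDegeneracy)
-/

noncomputable section

open Finset Helper5.CR Classical Equiv Equiv.Perm

namespace Helper5.BD

section GW1

/-- rotation in the wheel map -/
private def wsF {D : Type} (σ : Perm D) : D × Fin 5 → D × Fin 5
  | (d, 0) => (d, 1)
  | (d, 1) => (d, 2)
  | (d, 2) => (σ.symm d, 3)
  | (d, 3) => (σ d, 0)
  | (d, 4) => (σ d, 4)

/-- inverse rotation in the wheel map -/
private def wsG {D : Type} (σ : Perm D) : D × Fin 5 → D × Fin 5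
  | (d, 0) => (σ.symm d, 3)
  | (d, 1) => (d, 0)
  | (d, 2) => (d, 1)
  | (d, 3) => (σ d, 2)
  | (d, 4) => (σ.symm d, 4)

/-- the rotation of the wheel map as a permutation -/
private def wsP {D : Type} (σ : Perm D) : Perm (D × Fin 5) where
  toFun := wsF σ
  invFun := wsG σ
  left_inv := by
    rintro ⟨d, i⟩
    fin_cases i <;> simp [wsF, wsG]
  right_inv := by
    rintro ⟨d, i⟩
    fin_cases i <;> simp [wsF, wsG]

/-- opposite darts in the wheel map -/
private def waF {D : Type} (α : Perm D) : D × Fin 5 → D × Fin 5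
  | (d, 0) => (α d, 0)
  | (d, 1) => (d, 3)
  | (d, 2) => (d, 4)
  | (d, 3) => (d, 1)
  | (d, 4) => (d, 2)

private theorem waF_waF {D : Type} (α : Perm D) (hα : ∀ d, α (α d) = d) (a : D × Fin 5) :
    waF α (waF α a) = a := by
  obtain ⟨d, i⟩ := a
  fin_cases i <;> simp [waF, hα]

/-- the involution of the wheel map as a permutation -/
private def waP {D : Type} (α : Perm D) (hα : ∀ d, α (α d) = d) : Perm (D × Fin 5) where
  toFun := waF α
  invFun := waF α
  left_inv := waF_waF α hα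
  right_inv := waF_waF α hα

section
variable {D : Type} (σ α : Perm D) (hα : ∀ d, α (α d) = d) (d : D)

private theorem s0 : wsP σ (d, 0) = (d, 1) := rfl
private theorem s1 : wsP σ (d, 1) = (d, 2) := rfl
private theorem s2 : wsP σ (d, 2) = (σ.symm d, 3) := rfl
private theorem s3 : wsP σ (d, 3) = (σ d, 0) := rfl
private theorem s4 : wsP σ (d, 4) = (σ d, 4) := rfl
private theorem a0 : waP α hα (d, 0) = (α d, 0) := rfl
private theorem a1 : waP α hα (d, 1) = (d, 3) := rfl
private theorem a2 : waP α hα (d, 2) = (d, 4) := rfl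
private theorem a3 : waP α hα (d, 3) = (d, 1) := rfl
private theorem a4 : waP α hα (d, 4) = (d, 2) := rfl

end

private theorem fin5 {D : Type} {p : D × Fin 5 → Prop} (h0 : ∀ d, p (d, 0)) (h1 : ∀ d, p (d, 1))
    (h2 : ∀ d, p (d, 2)) (h3 : ∀ d, p (d, 3)) (h4 : ∀ d, p (d, 4)) (a : D × Fin 5) : p a := by
  obtain ⟨d, i⟩ := a
  fin_cases i
  · exact h0 d
  · exact h1 d
  · exact h2 d
  · exact h3 d
  · exact h4 d

private theorem sc_step {D : Type} {π : Perm D} (a : D) : π.SameCycle a (π a) := ⟨1, by simp⟩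

private theorem pow4 {D : Type} (σ : Perm D) (d : D) (n : ℕ) :
    ((wsP σ) ^ n) (d, 4) = ((σ ^ n) d, 4) := by
  induction n with
  | zero => simp
  | succ n ih =>
    rw [pow_succ', Perm.mul_apply, ih, s4, pow_succ', Perm.mul_apply]

private theorem sc4 {D : Type} [Fintype D] {σ : Perm D} {d d' : D} (h : σ.SameCycle d d') :
    (wsP σ).SameCycle (d, 4) (d', 4) := by
  obtain ⟨n, rfl⟩ := h.exists_nat_pow_eq
  exact ⟨n, by rw [zpow_natCast, pow4]⟩

private theorem nc_s {D : Type} [Fintype D] (σ : Perm D) :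
    nc σ + Nat.card D ≤ nc (wsP σ) := by
  have h := le_nc_of_surj (wsP σ) (Y := Quotient (SameCycle.setoid σ) ⊕ D)
    (fun a => if a.2 = 4 then Sum.inl (Quotient.mk _ a.1) else if a.2 = 3 then Sum.inr (σ a.1)
      else Sum.inr a.1) ?_ ?_
  · rwa [Nat.card_sum] at h
  · refine fin5 (fun d => ?_) (fun d => ?_) (fun d => ?_) (fun d => ?_) (fun d => ?_)
    · rw [s0]; simp
    · rw [s1]; simp
    · rw [s2]; simp
    · rw [s3]; simp
    · rw [s4]
      simp only [if_true]
      exact congrArg Sum.inl (Quotient.sound (SameCycle.symm (sc_step d)))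
  · rintro (q | d)
    · induction q using Quotient.inductionOn with | _ d => ?_
      exact ⟨(d, 4), by simp⟩
    · exact ⟨(d, 0), by simp⟩

private theorem nc_a {D : Type} [Fintype D] (α : Perm D) (hα : ∀ d, α (α d) = d) :
    nc α + (Nat.card D + Nat.card D) ≤ nc (waP α hα) := by
  have h := le_nc_of_surj (waP α hα) (Y := Quotient (SameCycle.setoid α) ⊕ (D ⊕ D))
    (fun a => if a.2 = 0 then Sum.inl (Quotient.mk _ a.1)
      else if a.2 = 1 ∨ a.2 = 3 then Sum.inr (Sum.inl a.1) else Sum.inr (Sum.inr a.1)) ?_ ?_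
  · rwa [Nat.card_sum, Nat.card_sum] at h
  · refine fin5 (fun d => ?_) (fun d => ?_) (fun d => ?_) (fun d => ?_) (fun d => ?_)
    · rw [a0]
      simp only [if_true]
      exact congrArg Sum.inl (Quotient.sound (SameCycle.symm (sc_step d)))
    · rw [a1]; simp
    · rw [a2]; simp
    · rw [a3]; simp
    · rw [a4]; simp
  · rintro (q | (d | d))
    · induction q using Quotient.inductionOn with | _ d => ?_
      exact ⟨(d, 0), by simp⟩
    · exact ⟨(d, 1), by simp⟩
    · exact ⟨(d, 2), by simp⟩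

private theorem nc_f {D : Type} [Fintype D] (σ α : Perm D) (hα : ∀ d, α (α d) = d) :
    nc (σ * α) + Nat.card D ≤ nc (wsP σ * waP α hα) := by
  have h := le_nc_of_surj (wsP σ * waP α hα) (Y := Quotient (SameCycle.setoid (σ * α)) ⊕ D)
    (fun a => if a.2 = 0 then Sum.inl (Quotient.mk _ a.1)
      else if a.2 = 1 then Sum.inl (Quotient.mk _ (σ a.1))
      else if a.2 = 4 then Sum.inr (σ.symm a.1) else Sum.inr a.1) ?_ ?_
  · rwa [Nat.card_sum] at h
  · refine fin5 (fun d => ?_) (fun d => ?_) (fun d => ?_) (fun d => ?_) (fun d => ?_)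
    · rw [Perm.mul_apply, a0, s0]
      simp only [if_true]
      exact congrArg Sum.inl (Quotient.sound (SameCycle.symm (sc_step (π := σ * α) d)))
    · rw [Perm.mul_apply, a1, s3]; simp
    · rw [Perm.mul_apply, a2, s4]; simp
    · rw [Perm.mul_apply, a3, s1]; simp
    · rw [Perm.mul_apply, a4, s2]; simp
  · rintro (q | d)
    · induction q using Quotient.inductionOn with | _ d => ?_
      exact ⟨(d, 0), by simp⟩
    · exact ⟨(d, 3), by simp⟩

private theorem ncomp_w {D : Type} [Fintype D] (σ α : Perm D) (hα : ∀ d, α (α d) = d) :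
    ncomp (wsP σ) (waP α hα) ≤ ncomp σ α := by
  set r := comp (wsP σ) (waP α hα) with hr
  have hs : ∀ a, r a (wsP σ a) := fun a => comp_of_sigma (sc_step a)
  have ha : ∀ a, r a (waP α hα a) := fun a => comp_of_alpha (sc_step a)
  have h01 : ∀ d, r (d, 0) (d, 1) := fun d => hs (d, 0)
  have h12 : ∀ d, r (d, 1) (d, 2) := fun d => hs (d, 1)
  have h24 : ∀ d, r (d, 2) (d, 4) := fun d => ha (d, 2)
  have h31 : ∀ d, r (d, 3) (d, 1) := fun d => ha (d, 3)
  have h00 : ∀ d, r (d, 0) (α d, 0) := fun d => ha (d, 0)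
  have h14 : ∀ d, r (d, 1) (d, 4) := fun d => r.trans (h12 d) (h24 d)
  have h04 : ∀ d, r (d, 0) (d, 4) := fun d => r.trans (h01 d) (h14 d)
  have h34 : ∀ d, r (d, 3) (d, 4) := fun d => r.trans (h31 d) (h14 d)
  have hle : comp σ α ≤ Setoid.comap (fun d => ((d, 4) : D × Fin 5)) r := by
    refine sup_le ?_ ?_
    · intro a b hab
      exact comp_of_sigma (sc4 hab)
    · intro a b hab
      refine sameCycle_of_forall (Setoid.comap (fun d => ((d, 4) : D × Fin 5)) r) ?_ hab
      intro d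
      exact r.trans (r.symm (h04 d)) (r.trans (h00 d) (h04 (α d)))
  refine Nat.card_le_card_of_surjective
    (Quotient.lift (fun d => (Quotient.mk r (d, 4))) (fun a b h => Quotient.sound (hle h)) :
      Quotient (comp σ α) → Quotient r) ?_
  intro q
  induction q using Quotient.inductionOn with | _ a => ?_
  revert a
  refine fin5 (fun d => ?_) (fun d => ?_) (fun d => ?_) (fun d => ?_) (fun d => ?_)
  · exact ⟨Quotient.mk _ d, Quotient.sound (r.symm (h04 d))⟩
  · exact ⟨Quotient.mk _ d, Quotient.sound (r.symm (h14 d))⟩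
  · exact ⟨Quotient.mk _ d, Quotient.sound (r.symm (h24 d))⟩
  · exact ⟨Quotient.mk _ d, Quotient.sound (r.symm (h34 d))⟩
  · exact ⟨Quotient.mk _ d, rfl⟩

private theorem same_w {D X : Type} [Fintype D] {σ : Perm D} (pt : D → X)
    (hpt : ∀ d d', pt d = pt d' ↔ σ.SameCycle d d') (a b : D × Fin 5) :
    wpt σ pt a = wpt σ pt b ↔ (wsP σ).SameCycle a b := by
  constructor
  · -- every dart of the rim point `inr d` is in the cycle of `(d, 0)`
    have key : ∀ a : D × Fin 5, (∃ d, wpt σ pt a = Sum.inl (pt d) ∧ a = (d, 4)) ∨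
        ∃ d, wpt σ pt a = Sum.inr d ∧ (wsP σ).SameCycle (d, 0) a := by
      refine fin5 (fun d => ?_) (fun d => ?_) (fun d => ?_) (fun d => ?_) (fun d => ?_)
      · exact Or.inr ⟨d, by simp [wpt], SameCycle.refl _ _⟩
      · exact Or.inr ⟨d, by simp [wpt], sc_step (π := wsP σ) (d, 0)⟩
      · exact Or.inr ⟨d, by simp [wpt], (sc_step (π := wsP σ) (d, 0)).trans
          (sc_step (π := wsP σ) (d, 1))⟩
      · exact Or.inr ⟨σ d, by simp [wpt], (sc_step (π := wsP σ) (d, 3)).symm⟩
      · exact Or.inl ⟨d, by simp [wpt], rfl⟩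
    intro h
    rcases key a with ⟨d, h1, h2⟩ | ⟨d, h1, h2⟩ <;> rcases key b with ⟨d', h3, h4⟩ | ⟨d', h3, h4⟩
    · rw [h1, h3] at h
      rw [h2, h4]
      exact sc4 ((hpt d d').1 (Sum.inl.inj h))
    · rw [h1, h3] at h
      exact absurd h (by simp)
    · rw [h1, h3] at h
      exact absurd h (by simp)
    · rw [h1, h3] at h
      have h5 := Sum.inr.inj h
      subst h5
      exact h2.symm.trans h4
  · intro h
    refine sameCycle_of_forall (Setoid.ker (wpt σ pt)) ?_ h
    refine fin5 (fun d => ?_) (fun d => ?_) (fun d => ?_) (fun d => ?_) (fun d => ?_)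
    · show wpt σ pt (d, 0) = wpt σ pt (d, 1)
      simp [wpt]
    · show wpt σ pt (d, 1) = wpt σ pt (d, 2)
      simp [wpt]
    · show wpt σ pt (d, 2) = wpt σ pt (σ.symm d, 3)
      simp [wpt]
    · show wpt σ pt (d, 3) = wpt σ pt (σ d, 0)
      simp [wpt]
    · show wpt σ pt (d, 4) = wpt σ pt (σ d, 4)
      simp only [wpt, if_true]
      exact congrArg Sum.inl ((hpt d (σ d)).2 (sc_step d))

/-- GW1 (wheel map).  `σ' (d, 0) = (d, 1)`, `σ' (d, 1) = (d, 2)`, `σ' (d, 2) = (σ⁻¹ d, 3)`,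
`σ' (d, 3) = (σ d, 0)`, `σ' (d, 4) = (σ d, 4)`, `α' = wa α`. -/
theorem exists_wheel {D X : Type} [Fintype D] {σ α : Perm D} (hp : Planar σ α)
    (hα : ∀ d, α (α d) = d) (hne : ∀ d, α d ≠ d) (pt : D → X)
    (hpt : ∀ d d', pt d = pt d' ↔ σ.SameCycle d d') :
    ∃ σ' α' : Perm (D × Fin 5), Wheel σ α pt σ' α' := by
  refine ⟨wsP σ, waP α hα, ?_, same_w pt hpt, ?_⟩
  · have h1 := nc_s σ
    have h2 := nc_a α hα
    have h3 := nc_f σ α hα
    have h4 := ncomp_w σ α hα
    have h5 := euler_le (wsP σ) (waP α hα)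
    have h6 : Nat.card (D × Fin 5) = Nat.card D * 5 := by
      rw [Nat.card_prod, Nat.card_eq_fintype_card (α := Fin 5), Fintype.card_fin]
    unfold Planar at hp ⊢
    rw [h6] at h5 ⊢
    omega
  · refine fin5 (fun d => ?_) (fun d => ?_) (fun d => ?_) (fun d => ?_) (fun d => ?_)
    · show (α d, (0 : Fin 5)) = wa α (d, 0)
      simp [wa]
    · show (d, (3 : Fin 5)) = wa α (d, 1)
      simp [wa]
    · show (d, (4 : Fin 5)) = wa α (d, 2)
      simp [wa]
    · show (d, (1 : Fin 5)) = wa α (d, 3)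
      simp [wa]
    · show (d, (2 : Fin 5)) = wa α (d, 4)
      simp [wa]

end GW1

end Helper5.BD
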